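import Pool.Agent.Helper96.NF.Push
import Pool.Agent.Helper74.NW.Model

/-!
# The recursive evaluation of the sum over a row with a pushdown store (cells with words)
-/

set_option autoImplicit false

namespace Pool.Agent.Helper96.NW

open Pool.Agent.Helper19.NF Pool.Agent.Helper74.NW Pool.Agent.Helper96.NF

variable {U D B : Type} [Fintype D] [AddCommGroup B] {R d N : ℕ}

/-- The states for the evaluation of the result: an element of the last row and the sum before it; the same with the
value of the element; the result. -/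
abbrev Xt (N : ℕ) (B : Type) : Type := (Fin N × B) ⊕ (Fin N × B × B) ⊕ B

/-- The state after the element `u` of the last row, with the new sum `t`. -/
def rnxt (u : Fin N) (t : B) : St R U d B (Xt N B) :=
  if h : (u : ℕ) + 1 < N then .inr (.inr (.inr (.inl (⟨u + 1, h⟩, t)))) else .inr (.inr (.inr (.inr (.inr t))))

/-- The instructions for the evaluation of the result. -/
def ax2 (hd : 0 < d) (x0 : U → B) (R : ℕ) (f : Fin N ≃ U) (c : D) :
    Xt N B → PAct B (D → B) B (St R U d B (Xt N B)) (Sy R U d B (Fin N × B))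
  | .inl (u, t) => .push (.inr (u, t)) (ent hd x0 R le_rfl (f u))
  | .inr (.inl (u, t, x)) => .ask x (fun w => rnxt u (t + w c))
  | .inr (.inr z) => .out z

/-- The program. -/
def prog2 (e : Fin d ≃ D) (hd : 0 < d) (g : D → Equiv.Perm U) (x0 : U → B) (R : ℕ) (f : Fin N ≃ U) (hN : 0 < N)
    (c : D) : PProg B (D → B) B (St R U d B (Xt N B)) (Sy R U d B (Fin N × B)) :=
  prog e hd g x0 (ax2 hd x0 R f c) (fun k x => .inr (.inl (k.1, k.2, x))) (.inl (⟨0, hN⟩, 0))

variable (e : Fin d ≃ D) (hd : 0 < d) (g : D → Equiv.Perm U) (x0 : U → B) (f : Fin N ≃ U) (hN : 0 < N) (c : D)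
  (I : B → D → B)

/-- One summand of the result, or `0`. -/
def rb (R : ℕ) (u : ℕ) : B := if h : u < N then I (val g x0 I R (f ⟨u, h⟩)) c else 0

theorem sum_rb [Fintype U] : ∑ u ∈ Finset.range N, rb g x0 f c I R u = res g x0 R c I := by
  unfold rb
  rw [← Finset.sum_fin_eq_sum_range (fun u : Fin N => I (val g x0 I R (f u)) c)]
  exact Equiv.sum_comp f (fun u => I (val g x0 I R u) c)

/-- The work at one element of the last row. -/
theorem run_elt {Y : Set B} {a : B} (hY : ∀ i ≤ R, ∀ w, val g x0 I i w ∈ Y) {j : ℕ} (hj : j < N) {t : B}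
    (h : Good (prog2 e hd g x0 R f hN c) I Y a (rnxt ⟨j, hj⟩ (t + rb g x0 f c I R j), [])) :
    Good (prog2 e hd g x0 R f hN c) I Y a (.inr (.inr (.inr (.inl (⟨j, hj⟩, t)))), []) := by
  refine good_push (P := prog2 e hd g x0 R f hN c) (g := .inr (⟨j, hj⟩, t)) rfl ?_
  refine run_val e hd g x0 (ax2 hd x0 R f c) _ _ I (fun i hi w => hY i hi.le w) _ R le_rfl _ _ ?_
  refine good_pop (P := prog2 e hd g x0 R f hN c) (s := .inr (.inr (.inl _))) rfl ?_
  refine good_ask (P := prog2 e hd g x0 R f hN c) (s := .inr (.inr (.inr (.inr (.inl _))))) rfl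
    (hY R le_rfl _) ?_
  show Good (prog2 e hd g x0 R f hN c) I Y a
    (rnxt ⟨j, hj⟩ (t + I (val g x0 I R (f ⟨j, hj⟩)) c), [])
  rw [rb, dif_pos hj] at h
  exact h

/-- The evaluation of the result. -/
theorem run_res [Fintype U] {Y : Set B} (hY : ∀ i ≤ R, ∀ w, val g x0 I i w ∈ Y) :
    Good (prog2 e hd g x0 R f hN c) I Y (res g x0 R c I) (.inr (.inr (.inr (.inl (⟨0, hN⟩, 0)))), []) := by
  have key : ∀ (m j : ℕ) (hj : j < N), N = j + (m + 1) → ∀ t : B, t = ∑ u ∈ Finset.range j, rb g x0 f c I R u →
      Good (prog2 e hd g x0 R f hN c) I Y (res g x0 R c I) (.inr (.inr (.inr (.inl (⟨j, hj⟩, t)))), []) := by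
    intro m
    induction m with
    | zero =>
      intro j hj hd' t ht
      refine run_elt e hd g x0 f hN c I hY hj ?_
      have e1 : t + rb g x0 f c I R j = res g x0 R c I := by
        rw [← sum_rb g x0 f c I, ht]
        have hr : Finset.range N = Finset.range (j + 1) := congrArg Finset.range (by omega)
        rw [hr, Finset.sum_range_succ]
      rw [e1]
      unfold rnxt
      rw [dif_neg (by show ¬ (j + 1 < N); omega)]
      exact good_out rfl
    | succ m ih =>
      intro j hj hd' t ht
      refine run_elt e hd g x0 f hN c I hY hj ?_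
      unfold rnxt
      rw [dif_pos (by show j + 1 < N; omega)]
      refine ih (j + 1) _ (by omega) _ ?_
      rw [Finset.sum_range_succ, ht]
  exact key (N - 1) 0 hN (by omega) 0 (by simp)

/-- W7: the deterministic pushdown program. -/
theorem pushdown_program {U D B : Type} [Fintype U] [Fintype D] [AddCommGroup B] [Fintype B] [Nonempty D] [Nonempty U]
    (g : D → Equiv.Perm U) (x0 : U → B) (R : ℕ) (c : D)
    (hB : (R + 1) * Fintype.card U ≤ Fintype.card B) (hB2 : 2 ≤ Fintype.card B) :
    ∃ (Q Γ : Type) (_ : Finite Q) (_ : Finite Γ) (P : PProg B (D → B) B Q Γ),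
      Nat.card Q ≤ (Fintype.card D * Fintype.card B) ^ 4 ∧ Nat.card Γ ≤ (Fintype.card D * Fintype.card B) ^ 2 ∧
      ∀ I, P.Outputs I (res g x0 R c I) ∧ Nat.card {b // P.Asks I b} ≤ (R + 1) * Fintype.card U := by
  classical
  have hd : 0 < Fintype.card D := Fintype.card_pos
  have hN : 0 < Fintype.card U := Fintype.card_pos
  let e : Fin (Fintype.card D) ≃ D := (Fintype.equivFin D).symm
  let f : Fin (Fintype.card U) ≃ U := (Fintype.equivFin U).symm
  refine ⟨St R U (Fintype.card D) B (Xt (Fintype.card U) B), Sy R U (Fintype.card D) B (Fin (Fintype.card U) × B),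
    inferInstance, inferInstance, prog2 e hd g x0 R f hN c, ?_, ?_, fun I => ?_⟩
  · have h1 : Nat.card (St R U (Fintype.card D) B (Xt (Fintype.card U) B)) =
        (R * (Fintype.card U * Fintype.card D)) * Fintype.card B + ((R * (Fintype.card U * Fintype.card D)) *
      (Fintype.card B * Fintype.card B) + (Fintype.card B + (Fintype.card U * Fintype.card B +
        (Fintype.card U * (Fintype.card B * Fintype.card B) + Fintype.card B)))) := by
      rw [Nat.card_eq_fintype_card]
      simp only [Fintype.card_sum, Fintype.card_prod, Fintype.card_fin]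
    rw [h1]
    generalize Fintype.card B = k at hB hB2
    generalize Fintype.card D = d at hd
    generalize Fintype.card U = N at hB hN
    have e1 : R * (N * d) + N ≤ d * k := by
      calc R * (N * d) + N ≤ R * (N * d) + N * d := by nlinarith
        _ = d * ((R + 1) * N) := by ring
        _ ≤ d * k := Nat.mul_le_mul le_rfl hB
    have e2 : (R * (N * d)) * k + ((R * (N * d)) * (k * k) + (k + (N * k + (N * (k * k) + k)))) =
        (R * (N * d) + N) * (k + k * k) + 2 * k := by ring
    rw [e2]
    have e3 : (R * (N * d) + N) * (k + k * k) ≤ (d * k) * (k + k * k) := Nat.mul_le_mul e1 le_rfl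
    have e4 : 2 * k ≤ d * k * k := by nlinarith
    have e5 : k ≤ d * k := by nlinarith
    have e6 : (d * k) * (k + k * k) + d * k * k ≤ (d * k) * (k * (k * k)) := by
      have : k + k * k + k ≤ k * (k * k) := by
        nlinarith [Nat.mul_le_mul hB2 hB2, Nat.mul_le_mul hB2 (le_refl (k * k))]
      calc (d * k) * (k + k * k) + d * k * k = (d * k) * (k + k * k + k) := by ring
        _ ≤ (d * k) * (k * (k * k)) := Nat.mul_le_mul le_rfl this
    have e7 : (d * k) * (k * (k * k)) ≤ (d * k) * ((d * k) * ((d * k) * (d * k))) := by gcongr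
    calc (R * (N * d) + N) * (k + k * k) + 2 * k ≤ (d * k) * (k * (k * k)) := by omega
      _ ≤ (d * k) * ((d * k) * ((d * k) * (d * k))) := e7
      _ = (d * k) ^ 4 := by ring
  · have h1 : Nat.card (Sy R U (Fintype.card D) B (Fin (Fintype.card U) × B)) =
        (R * (Fintype.card U * Fintype.card D)) * Fintype.card B + Fintype.card U * Fintype.card B := by
      rw [Nat.card_eq_fintype_card]
      simp only [Fintype.card_sum, Fintype.card_prod, Fintype.card_fin]
    rw [h1]
    generalize Fintype.card B = k at hB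
    generalize Fintype.card D = d at hd
    generalize Fintype.card U = N at hB
    have e1 : R * (N * d) + N ≤ d * k := by
      calc R * (N * d) + N ≤ R * (N * d) + N * d := by nlinarith
        _ = d * ((R + 1) * N) := by ring
        _ ≤ d * k := Nat.mul_le_mul le_rfl hB
    have e5 : k ≤ d * k := by nlinarith
    calc (R * (N * d)) * k + N * k = (R * (N * d) + N) * k := by ring
      _ ≤ (d * k) * (d * k) := Nat.mul_le_mul e1 e5
      _ = (d * k) ^ 2 := by ring
  · have hY : ∀ i ≤ R, ∀ w, val g x0 I i w ∈ Set.range (fun y : Fin (R + 1) × U => val g x0 I y.1 y.2) :=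
      fun i hi w => ⟨(⟨i, by omega⟩, w), rfl⟩
    obtain ⟨h1, h2⟩ := run_res e hd g x0 f hN c I hY
    refine ⟨h1, ?_⟩
    have h3 : ∀ b : {b // (prog2 e hd g x0 R f hN c).Asks I b}, ∃ y : Fin (R + 1) × U, val g x0 I y.1 y.2 = b.1 := by
      rintro ⟨b, m, nx, hm⟩
      exact h2 m b nx hm
    choose φ hφ using h3
    have h4 : Function.Injective φ := fun c c' h => Subtype.ext (by rw [← hφ c, ← hφ c', h])
    calc Nat.card {b // (prog2 e hd g x0 R f hN c).Asks I b} ≤ Nat.card (Fin (R + 1) × U) :=
          Nat.card_le_card_of_injective φ h4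
      _ = (R + 1) * Fintype.card U := by
        rw [Nat.card_eq_fintype_card, Fintype.card_prod, Fintype.card_fin]

end Pool.Agent.Helper96.NW
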